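import Pool.Agent.Lib.MP_5c318e_ag.Np.Min
import Pool.Agent.Lib.MP_5c318e_ag.Np.Noe
import Pool.Agent.Lib.MP_5c318e_ag.Np.PolB
import Pool.Agent.Lib.MP_5c318e_ag.Sch.Norm
import Pool.Agent.Lib.MP_5c318e_ag.C.Siz

/-! Valuative bounds are pointwise bounds, with constants of moderate growth on the base. -/

set_option autoImplicit false
set_option linter.unusedSectionVars false

namespace Pool.Agent.Lib.MP_5c318e_ag.T6

open Set Polynomial

theorem normal {ι F : Type} [Fintype ι] [DecidableEq ι] [Field F] [Algebra ℂ F] (c : Cht ι F) :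
    IsIntegrallyClosed c.O := by
  let _ := (MvPolynomial.aeval c.z : MvPolynomial ι ℂ →ₐ[ℂ] c.O).toRingHom.toAlgebra
  have : Algebra.Etale (MvPolynomial ι ℂ) c.O := c.et
  exact norm_etale (MvPolynomial ι ℂ) c.O

variable {R M α K ν : Type} [CommRing R] [IsDomain R] [Algebra ℂ R] [Field M] [Algebra ℂ M]
  {O : Subalgebra ℂ M} [Field K] [Algebra R K] [IsFractionRing R K] [Algebra K M]
  {inc : R →ₐ[ℂ] O} {z : α → O} [Fintype ν] [DecidableEq ν]

theorem evP_le (q : MvPolynomial ν R) (b : Pt R) (a : ν → ℂ) :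
    ‖evP b a q‖ ≤ (∑ d ∈ q.support, ‖b (q.coeff d)‖) * (1 + ‖a‖) ^ q.totalDegree := by
  rw [evP, MvPolynomial.coe_eval₂Hom, MvPolynomial.eval₂_eq', Finset.sum_mul]
  refine norm_sum_le_of_le _ fun d hd => ?_
  rw [norm_mul, norm_prod]
  refine mul_le_mul_of_nonneg_left ?_ (norm_nonneg _)
  calc ∏ i, ‖a i ^ d i‖ ≤ ∏ i, (1 + ‖a‖) ^ d i := Finset.prod_le_prod (fun _ _ => norm_nonneg _)
        fun i _ => by
          rw [norm_pow]
          exact pow_le_pow_left₀ (norm_nonneg _) (by linarith [norm_le_pi_norm a i]) _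
    _ ≤ _ := by
      rw [Finset.prod_pow_eq_pow_sum, ← Finsupp.degree_eq_sum]
      exact pow_le_pow_right₀ (le_add_of_nonneg_right (norm_nonneg _)) (PolB.deg_le hd)

theorem grow [IsIntegrallyClosed R] [Algebra.FiniteType ℂ O] {N : Noe K inc ν z} {g : O} {k : ℕ}
    (h : N.Deg g k) (hu : IsUnit N.h) {s : Pt R → ℝ} (s0 : ∀ b, 0 ≤ s b)
    (md : ∀ r : R, Md s fun b => ‖b r‖) : ∃ C : ℝ, 0 ≤ C ∧ ∀ p : Pt O,
      ‖p g‖ ≤ Real.exp (C * s (p.res inc) + C) * (1 + ‖N.L p‖) ^ k := by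
  obtain ⟨d, H⟩ := N.exists_min
  obtain ⟨e, P, hP, -, -, H, hk⟩ := H g
  obtain ⟨u, hv⟩ := (hu.pow e).exists_left_inv
  let A : Pt R → ℝ := fun b => ∑ i ∈ Finset.range P.natDegree,
    ∑ d ∈ (P.coeff i).support, ‖b ((P.coeff i).coeff d)‖
  have A0 : ∀ b, 0 ≤ A b := fun b => by positivity
  obtain ⟨C, C0, hC⟩ : Md s fun b => ‖b u‖ * (1 + P.natDegree * A b) :=
    (md u).mul (Md.add s0 (Md.const s0 1) ((Md.const s0 _).mul (Md.sum s0 _ fun i _ =>
      Md.sum s0 _ fun d _ => md _) A0)) fun b => by have := A0 b; positivity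
  refine ⟨C, C0, fun p => le_trans ?_ (mul_le_mul_of_nonneg_right (hC _) (by positivity))⟩
  have e1 : p.res inc u * p.res inc N.h ^ e = 1 := by rw [← map_pow, ← map_mul, hv, map_one]
  have h1 : (1 : ℝ) ≤ 1 + ‖N.L p‖ := le_add_of_nonneg_right (norm_nonneg _)
  have h0 : p.res inc N.h ≠ 0 := (hu.map (p.res inc).hom).ne_zero
  have := PolB.root_le (hP.map (evP (p.res inc) (N.L p))) (A0 (p.res inc))
    (pow_nonneg (zero_le_one.trans h1) k) (fun i hi => by
      rw [hP.natDegree_map] at hi ⊢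
      rw [coeff_map, ← pow_mul, mul_comm k]
      exact (evP_le _ _ _).trans (mul_le_mul (Finset.single_le_sum (f := fun i =>
        ∑ d ∈ (P.coeff i).support, ‖p.res inc ((P.coeff i).coeff d)‖) (fun i _ => by positivity)
        (Finset.mem_range.2 hi)) (pow_le_pow_right₀ h1 ((hk k).1 h i)) (by positivity) (A0 _)))
    ((eval_map _ _).trans ((H _ _ _ h0).2 ⟨p, rfl, rfl, rfl⟩))
  rw [hP.natDegree_map] at this
  rw [← one_mul (p g), ← e1, mul_assoc, norm_mul, mul_assoc]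
  exact mul_le_mul_of_nonneg_left this (norm_nonneg _)

end Pool.Agent.Lib.MP_5c318e_ag.T6
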