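import Pool.Agent.Lib.MP_5c318e_ag.T6.Grow
import Pool.Agent.Lib.MP_5c318e_ag.Sx.SDefs
import Pool.Agent.Lib.MP_5c318e_ag.Xt.SubA
import Pool.Agent.Lib.MP_5c318e_ag.Mm.Mom
import Pool.Agent.Lib.MP_5c318e_ag.Np.Inf

/-! Exponential moments of the size on all fibres. -/

set_option autoImplicit false
set_option linter.unusedSectionVars false

namespace Pool.Agent.Lib.MP_5c318e_ag

open MeasureTheory Set Filter Topology

variable {ν K M : Type} [Fintype ν] [DecidableEq ν] [Field K] [Algebra ℂ K] [Field M] [Algebra ℂ M]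
  [Algebra K M] [IsScalarTower ℂ K M] {d : Dat Unit K ν M}

namespace T6

variable (G : d.Geo)

theorem ph0 (p : Pt d.T.X.O) : 0 ≤ G.ph p := Real.log_nonneg (G.one p)

theorem lam0 (p : Pt d.T.X.O) : 0 < G.lam p :=
  G.tow.pos _ _ ((Xt.up_eq p G.Δ).symm.trans_ne (G.Δu.map p.hom).ne_zero)

theorem L_exp : ∃ C : ℝ, 1 ≤ C ∧ ∀ p, 1 + ‖G.No.L p‖ ≤ C * Real.exp (G.ph p / 2) := by
  obtain ⟨C, C0, hC⟩ := G.No.L_le
  refine ⟨1 + C, by linarith, fun p => ?_⟩
  have h1 := Real.one_le_exp (div_nonneg (ph0 G p) zero_le_two)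
  have : ‖fun x : Fin G.na × Fin G.nb => p (G.ρ x.1 * G.r x.2)‖ ≤ Real.exp (G.ph p / 2) := by
    refine (pi_norm_le_iff_of_nonneg (by positivity)).2 fun x => (abs_le_of_sq_le_sq' ?_
      (by positivity)).2
    rw [sq (Real.exp _), ← Real.exp_add, add_halves, Dat.Geo.ph,
      Real.exp_log (one_pos.trans_le (G.one p))]
    exact Finset.single_le_sum (f := fun x : Fin G.na × Fin G.nb => ‖p (G.ρ x.1 * G.r x.2)‖ ^ 2)
      (fun _ _ => sq_nonneg _) (Finset.mem_univ x)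
  nlinarith [(hC p).trans (mul_le_mul_of_nonneg_left this C0)]

theorem deg_le {g : d.T.X.O} {k : ℕ} (h : G.No.Deg g k) : ∃ C : ℝ, 0 ≤ C ∧ ∀ p : Pt d.T.X.O,
    ‖p g‖ ≤ Real.exp (C * d.B.siz (p.res d.T.inc) + C + k * G.ph p / 2) := by
  have := normal d.B
  obtain ⟨C, C0, hC⟩ := grow h G.hu d.B.siz_nonneg d.B.md
  obtain ⟨A, A1, hA⟩ := L_exp G
  have l0 := Real.log_nonneg A1
  refine ⟨C + k * Real.log A, by positivity, fun p => (hC p).trans
    ((mul_le_mul_of_nonneg_left (pow_le_pow_left₀ (by positivity) (hA p) k) (by positivity)).trans ?_)⟩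
  rw [← Real.exp_log (one_pos.trans_le A1), ← Real.exp_add, ← Real.exp_nat_mul, ← Real.exp_add,
    Real.log_exp, Real.exp_le_exp]
  nlinarith [mul_nonneg (mul_nonneg k.cast_nonneg l0) (d.B.siz_nonneg (p.res d.T.inc))]

theorem siz_le : ∃ C : ℝ, 0 ≤ C ∧ ∀ p,
    d.T.X.siz p ≤ C * (G.ph p + d.B.siz (p.res d.T.inc)) + C := by
  have s0 : ∀ p, 0 ≤ G.ph p + d.B.siz (p.res d.T.inc) := fun p =>
    add_nonneg (ph0 G p) (d.B.siz_nonneg _)
  refine (Md.add s0 (Md.sum s0 d.T.X.gens fun a _ => Md.pow s0 ?_ (fun _ => norm_nonneg _) 2)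
    (Md.const s0 1)).log_le fun x => by positivity
  obtain ⟨k, hk⟩ := G.No.exists_deg a
  obtain ⟨C, C0, hC⟩ := deg_le G hk
  refine ⟨C + k, by positivity, fun p => (hC p).trans (Real.exp_le_exp.2 ?_)⟩
  have k0 : (0 : ℝ) ≤ k := k.cast_nonneg
  nlinarith [mul_nonneg C0 (ph0 G p), mul_nonneg k0 (ph0 G p),
    mul_nonneg k0 (d.B.siz_nonneg (p.res d.T.inc))]

variable (lc : ∀ V : G.No.DD, ∃ a, G.ρ a ≠ 0 ∧ (G.Jd V / G.U.π V) ^ G.N / G.ρ a ∈ V.1)
include lc

theorem deg_tau : ∃ E k : ℕ, 0 < E ∧ k + 1 = d.m * E ∧ ∀ i j,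
    G.No.Deg (((d.τ i ^ G.N * G.r j ^ d.m) ^ E : d.T.X.O) : M) k := by
  have := normal d.B
  have := G.No.finite_DD
  have : CharZero K := charZero_of_injective_algebraMap (algebraMap ℂ K).injective
  obtain ⟨E, hE⟩ := (Finite.bddAbove_range G.U.e)
  have m0 : 0 < d.m := by have := d.hm; omega
  refine ⟨E + 1, d.m * (E + 1) - 1, by omega, Nat.sub_add_cancel (Nat.mul_pos m0 E.succ_pos),
    fun i j V hV j' => ?_⟩
  obtain ⟨a, a0, ha⟩ := lc ⟨V, hV⟩
  have ad := G.U.adp ⟨V, hV⟩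
  have h1 := (plu_iff d.T.dual.isFr).1 ((d.span _).2 (Submodule.subset_span ⟨i, rfl⟩)) V _ _ ad
  have h2 := G.No.deg_z (a, j) V hV j'
  have t1 := ad.lt
  have p0 := ad.basis.1.ne_zero G.j0
  rw [Function.update_self] at t1 p0
  have l1 := hV.one_lt j'
  have h3 := G.U.val ⟨V, hV⟩ (G.No.l j') fun h => by simp [h] at l1
  rw [G.U.od_l, zpow_neg, zpow_natCast] at h3
  have t0 := (V.valuation.pos_iff).2 p0
  have r0 := (V.valuation.pos_iff (x := (G.ρ a : M))).2 fun h => a0 (Subtype.ext h)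
  rw [← V.valuation_le_one_iff, map_div₀, map_pow, map_div₀, div_le_one₀ r0, div_pow,
    div_le_iff₀ (pow_pos t0 _)] at ha
  rw [Subalgebra.coe_mul, map_mul, pow_one] at h2
  change _ ≤ V.valuation (G.Jd ⟨V, hV⟩) ^ d.m at h1
  simp only [Subalgebra.coe_pow, Subalgebra.coe_mul, map_pow, map_mul]
  set t := V.valuation (G.U.π ⟨V, hV⟩)
  set γ := V.valuation (G.No.l j' : M)
  have h4 : V.valuation (d.τ i : M) ^ G.N * V.valuation (G.r j : M) ^ d.m ≤ γ ^ d.m * t := by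
    calc _ ≤ (V.valuation (G.ρ a : M) * t ^ G.N) ^ d.m * V.valuation (G.r j : M) ^ d.m := by
          refine mul_le_mul_left ((pow_le_pow_left₀ zero_le h1 _).trans ?_) _
          rw [← pow_mul, mul_comm, pow_mul]
          exact pow_le_pow_left₀ zero_le ha _
      _ = (V.valuation (G.ρ a : M) * V.valuation (G.r j : M)) ^ d.m * t ^ (G.N * d.m) := by
          rw [mul_pow, mul_pow, pow_mul, mul_right_comm]
      _ ≤ _ := mul_le_mul' (pow_le_pow_left₀ zero_le h2 _)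
          (pow_le_of_le_one zero_le t1.le (Nat.mul_pos G.Npos m0).ne')
  refine (pow_le_pow_left₀ zero_le h4 _).trans ?_
  rw [mul_pow, ← pow_mul, pow_sub₀ _ (one_pos.trans l1).ne' (Nat.mul_pos m0 E.succ_pos), pow_one]
  refine mul_le_mul_right ?_ _
  rw [h3, inv_inv]
  exact pow_le_pow_of_le_one zero_le t1.le ((hE ⟨_, rfl⟩).trans E.le_succ)

theorem psi_ge : ∃ c C : ℝ, 0 < c ∧ 0 ≤ C ∧ ∀ p,
    c * G.ph p - C * d.B.siz (p.res d.T.inc) - C ≤ G.Psi p := by
  obtain ⟨E, k, E0, hk, h⟩ := deg_tau G lc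
  choose C C0 hC using fun x : Fin d.r × Fin G.nb => deg_le G (h x.1 x.2)
  have m0 : (0 : ℝ) < d.m := by have := d.wt_m; linarith
  have N0 : (0 : ℝ) < G.N := by exact_mod_cast G.Npos
  have E1 : (0 : ℝ) < E := by exact_mod_cast E0
  have S0 : 0 ≤ ∑ x, C x := Finset.sum_nonneg fun x _ => C0 x
  set w : ℝ := d.m * E * G.N with hw
  have w0 : 0 < w := by positivity
  have lr := Real.log_natCast_nonneg d.r
  have lb := Real.log_natCast_nonneg G.nb
  refine ⟨1 / w, (2 * ∑ x, C x + G.N * E * Real.log d.r + d.m * E * Real.log G.nb) / w,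
    by positivity, by positivity, fun p => ?_⟩
  have : Nonempty (Fin d.r) := ⟨⟨0, d.hr⟩⟩
  have e : ∑ x : Fin G.na × Fin G.nb, ‖p (G.ρ x.1 * G.r x.2)‖ ^ 2 =
      G.lam p ^ G.N * ∑ j, ‖p (G.r j)‖ ^ 2 := by
    rw [Dat.Geo.lam, G.ρΛ, Finset.sum_mul_sum, Fintype.sum_prod_type]
    simp only [map_mul, norm_mul, mul_pow]
  have o := G.one p
  have R0 : ∑ j, ‖p (G.r j)‖ ^ 2 ≠ 0 := fun h => by rw [e, h, mul_zero] at o; linarith
  have : Nonempty (Fin G.nb) := by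
    by_contra h
    rw [not_nonempty_iff] at h
    exact R0 (Fintype.sum_empty _)
  obtain ⟨i, hi⟩ := Finite.exists_max fun i => ‖p (d.τ i)‖
  obtain ⟨j, hj⟩ := Finite.exists_max fun j => ‖p (G.r j)‖
  have mx : ∀ {n : ℕ} {f : Fin n → ℝ} {i : Fin n}, (∀ j, 0 ≤ f j) → (∀ j, f j ≤ f i) →
      ∑ j, f j ^ 2 ≠ 0 → 0 < f i ∧ Real.log (∑ j, f j ^ 2) ≤ Real.log n + 2 * Real.log (f i) := by
    intro n f i f0 fi s0
    have s1 : 0 < ∑ j, f j ^ 2 := (Finset.sum_nonneg fun _ _ => sq_nonneg _).lt_of_ne' s0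
    have s2 : ∑ j, f j ^ 2 ≤ n * f i ^ 2 := by
      simpa using Finset.sum_le_card_nsmul Finset.univ (fun j => f j ^ 2) _
        fun j _ => pow_le_pow_left₀ (f0 j) (fi j) 2
    have i0 : f i ≠ 0 := fun h => by rw [h] at s2; simp at s2; linarith
    refine ⟨(f0 i).lt_of_ne' i0, (Real.log_le_log s1 s2).trans_eq ?_⟩
    rw [Real.log_mul (Nat.cast_ne_zero.2 i.pos.ne') (pow_ne_zero 2 i0), Real.log_pow]
    rfl
  obtain ⟨a0, a1⟩ := mx (fun _ => norm_nonneg _) hi (d.Bs_pos (i0 := ⟨0, d.hr⟩) G.τu p).ne'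
  obtain ⟨b0, b1⟩ := mx (fun _ => norm_nonneg _) hj R0
  have c1 := hC (i, j) p
  rw [map_pow, map_mul, map_pow, map_pow, norm_pow, norm_mul, norm_pow, norm_pow,
    ← Real.log_le_iff_le_exp (by positivity), Real.log_pow, Real.log_mul (by positivity)
      (by positivity), Real.log_pow, Real.log_pow] at c1
  have c2 : G.ph p = G.N * Real.log (G.lam p) + Real.log (∑ j, ‖p (G.r j)‖ ^ 2) := by
    rw [Dat.Geo.ph, e, Real.log_mul (pow_pos (lam0 G p) _).ne' R0, Real.log_pow]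
  have c3 : C (i, j) ≤ ∑ x, C x := Finset.single_le_sum (fun x _ => C0 x) (Finset.mem_univ _)
  have c4 : (k : ℝ) = d.m * E - 1 := by rw [eq_sub_iff_add_eq]; exact_mod_cast hk
  have s0 := d.B.siz_nonneg (p.res d.T.inc)
  have c5 : w * G.Psi p = w * Real.log (G.lam p) - E * G.N * Real.log (d.Bs p) := by
    rw [Dat.Geo.Psi, hw]; field_simp
  change Real.log (d.Bs p) ≤ _ at a1
  refine le_of_mul_le_mul_left ?_ w0
  rw [c5, mul_sub, mul_sub, ← mul_assoc, ← mul_assoc, mul_div_cancel₀ _ w0.ne',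
    mul_div_cancel₀ _ w0.ne', hw]
  rw [c4] at c1
  nlinarith [mul_le_mul_of_nonneg_left a1 (by positivity : (0 : ℝ) ≤ E * G.N),
    mul_le_mul_of_nonneg_left b1 (by positivity : (0 : ℝ) ≤ d.m * E),
    mul_le_mul_of_nonneg_right c3 s0, mul_nonneg (by positivity :
      (0 : ℝ) ≤ G.N * E * Real.log d.r + d.m * E * Real.log G.nb) s0]

omit lc in
theorem vol_le (b : Pt d.B.O) : ∫⁻ p, ENNReal.ofReal (G.lam p.1 / G.sz p.1 ^ G.Mc) ∂(d.T.fib b).μ ≤
    ENNReal.ofReal (d.T.finX.f.natDegree * G.Kc) := by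
  obtain ⟨C, e1, -, -⟩ := d.T.cov b (d.cov b)
  have hc : Continuous fun a : ν → ℂ => MvPolynomial.eval₂ (b.hom : d.B.O →+* ℂ) a G.Δ := by
    simpa only [MvPolynomial.eval_map] using (MvPolynomial.map (b.hom : d.B.O →+* ℂ) G.Δ).continuous_eval
  have hU := (isOpen_ne_fun hc (continuous_const (y := 0))).measurableSet
  have h1 := Mm.lint_card (d.T.fib b) C.card_le (((G.tow.meas b).div ((Mm.meas_sz
    (ev := fun b : Pt d.B.O => (b.hom : d.B.O →+* ℂ)) (s0 := d.B.siz) (Δ := G.Δ) b).pow_const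
      G.Mc)).ennreal_ofReal.indicator hU)
  rw [lintegral_indicator hU, e1, d.T.finX.monic.natDegree_map] at h1
  refine le_trans (le_of_eq (lintegral_congr ?_)) (h1.trans ?_)
  · rintro ⟨p, rfl⟩
    rw [Xt.fib_xc, indicator_of_mem]
    · rfl
    · exact (Xt.up_eq p G.Δ).symm.trans_ne (G.Δu.map p.hom).ne_zero
  · rw [ENNReal.ofReal_mul (by positivity), ENNReal.ofReal_natCast]
    exact mul_le_mul_right (G.tow.mass b) _

theorem mom : ∃ c0 : ℝ, 0 < c0 ∧ ∃ C : ℝ, 0 ≤ C ∧ ∀ b,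
    ∫⁻ p, ENNReal.ofReal (Real.exp (c0 * d.T.X.siz p.1) * d.rho p.1) ∂(d.T.fib b).μ ≤
      ENNReal.ofReal (Real.exp (C * d.B.siz b + C)) := by
  obtain ⟨c, C, c0, C0, h1⟩ := psi_ge G lc
  obtain ⟨A, A0, h2⟩ := siz_le G
  obtain ⟨B, B0, h3⟩ := Xt.L_le (T := d.T.toRel) (Δ := G.Δ) G.Δu
  set e := c / (2 * (A + 1)) with he
  have e0 : 0 < e := by positivity
  obtain ⟨q, q1, h4⟩ := Mm.pow_le_exp G.Mc (ε := e / (B + 1)) (by positivity)
  have K1 := G.tow.one_le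
  set Z := q * (d.T.finX.f.natDegree * G.Kc)
  have Z0 : 0 ≤ Z := by positivity
  refine ⟨e, e0, C + c + e + Z, by positivity, fun b => ?_⟩
  have s0 := d.B.siz_nonneg b
  set u := (C + c) * d.B.siz b + (C + c + e)
  calc _ ≤ ∫⁻ p, ENNReal.ofReal (Real.exp u * q) *
        ENNReal.ofReal (G.lam p.1 / G.sz p.1 ^ G.Mc) ∂(d.T.fib b).μ := by
        refine lintegral_mono fun p => ?_
        have z2 : 2 ≤ G.sz p.1 := Xt.two_le_L (T := d.T.toRel) (Δ := G.Δ) p.1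
        have z3 : G.sz p.1 ≤ B * d.T.X.siz p.1 + B := h3 p.1
        have x0 := d.T.X.siz_nonneg p.1
        have er : d.rho p.1 = G.lam p.1 * Real.exp (-G.Psi p.1) := by
          rw [Dat.Geo.Psi, neg_sub, Real.exp_sub, Real.exp_log (lam0 G _),
            mul_div_cancel₀ _ (lam0 G _).ne', Dat.rho,
            Real.rpow_def_of_pos (d.Bs_pos (i0 := ⟨0, d.hr⟩) G.τu _), mul_one_div]
        rw [← ENNReal.ofReal_mul (by positivity)]
        refine ENNReal.ofReal_le_ofReal ?_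
        rw [← mul_div_assoc, le_div_iff₀ (by positivity), er]
        have k1 : e / (B + 1) * G.sz p.1 ≤ e * d.T.X.siz p.1 + e := by
          rw [div_mul_eq_mul_div, div_le_iff₀ (by positivity)]
          nlinarith [mul_le_mul_of_nonneg_left z3 e0.le, mul_nonneg e0.le x0]
        have k2 := h1 p.1
        have k3 := h2 p.1
        rw [p.2] at k2 k3
        have k4 : 2 * e * d.T.X.siz p.1 ≤ c * (G.ph p.1 + d.B.siz b + 1) := by
          rw [show 2 * e = c / (A + 1) by rw [he]; field_simp, div_mul_eq_mul_div,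
            div_le_iff₀ (by positivity), mul_assoc]
          exact mul_le_mul_of_nonneg_left (by nlinarith [ph0 G p.1]) c0.le
        calc _ ≤ Real.exp (e * d.T.X.siz p.1) * (G.lam p.1 * Real.exp (-G.Psi p.1)) *
              (q * Real.exp (e * d.T.X.siz p.1 + e)) :=
              mul_le_mul_of_nonneg_left ((h4 _ (by linarith)).trans (mul_le_mul_of_nonneg_left
                (Real.exp_le_exp.2 k1) (by linarith))) (by have := lam0 G p.1; positivity)
          _ = Real.exp (e * d.T.X.siz p.1 + -G.Psi p.1 + (e * d.T.X.siz p.1 + e)) * q *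
              G.lam p.1 := by simp only [Real.exp_add]; ring
          _ ≤ _ := mul_le_mul_of_nonneg_right (mul_le_mul_of_nonneg_right (Real.exp_le_exp.2
              (by simp only [u]; linarith)) (by linarith)) (lam0 G _).le
    _ ≤ ENNReal.ofReal (Real.exp u * q) * ENNReal.ofReal (d.T.finX.f.natDegree * G.Kc) := by
        rw [lintegral_const_mul' _ _ ENNReal.ofReal_ne_top]
        exact mul_le_mul_right (vol_le G b) _
    _ ≤ _ := by
        rw [← ENNReal.ofReal_mul (by positivity), mul_assoc]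
        refine ENNReal.ofReal_le_ofReal ((mul_le_mul_of_nonneg_left ((le_add_of_nonneg_right
          zero_le_one).trans (Real.add_one_le_exp Z)) (by positivity)).trans ?_)
        rw [← Real.exp_add, Real.exp_le_exp]
        simp only [u]
        nlinarith [mul_nonneg (add_nonneg e0.le Z0) s0]

/-- the field `mom` of `Pol` -/
theorem mom_field {s0 : Pt d.B.O → ℝ} (h : ∀ b, d.B.siz b ≤ s0 b) :
    ∃ c0 : ℝ, 0 < c0 ∧ ∃ C : ℝ, 0 ≤ C ∧ ∀ᵐ b ∂d.B.D.μ, d.B.siz b ≤ C * s0 b + C ∧ 0 ≤ s0 b ∧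
      ∫⁻ p, ENNReal.ofReal (Real.exp (c0 * d.T.X.siz p.1) * d.rho p.1) ∂(d.T.fib b).μ ≤
        ENNReal.ofReal (Real.exp (C * s0 b + C)) := by
  obtain ⟨c, c0, C, C0, H⟩ := mom G lc
  refine ⟨c, c0, C + 1, by positivity, .of_forall fun b => ?_⟩
  have s1 := (d.B.siz_nonneg b).trans (h b)
  refine ⟨by nlinarith [h b], s1, (H b).trans (ENNReal.ofReal_le_ofReal (Real.exp_le_exp.2 ?_))⟩
  nlinarith [mul_le_mul_of_nonneg_left (h b) C0]

end T6

end Pool.Agent.Lib.MP_5c318e_ag
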