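import Pool.Agent.Lib.MP_5c318e_ag.T6.Mom
import Pool.Agent.Lib.MP_5c318e_ag.Sx.Lc

/-! The moment bound of the geometric data. -/

set_option autoImplicit false

namespace Pool.Agent.Lib.MP_5c318e_ag

open MeasureTheory

variable {ν K M : Type} [Fintype ν] [DecidableEq ν] [Field K] [Algebra ℂ K] [Field M] [Algebra ℂ M]
  [Algebra K M] [IsScalarTower ℂ K M] {d : Dat Unit K ν M}

theorem Dat.Geo.mom_field (G : d.Geo) {P : Pt d.B.O → ℝ} (hP : ∀ b, d.B.siz b ≤ P b) :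
    ∃ c0 : ℝ, 0 < c0 ∧ ∃ C : ℝ, 0 ≤ C ∧ ∀ᵐ b ∂d.B.D.μ, d.B.siz b ≤ C * P b + C ∧ 0 ≤ P b ∧
      ∫⁻ p, ENNReal.ofReal (Real.exp (c0 * d.T.X.siz p.1) * d.rho p.1) ∂(d.T.fib b).μ ≤
        ENNReal.ofReal (Real.exp (C * P b + C)) := T6.mom_field G G.lc hP

end Pool.Agent.Lib.MP_5c318e_ag
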